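import Pool.Agent.helper23.F2.Spec

/-!
# MP_26dbae_co (S07735), row CL1: leave out the edges with a label of one of their ends
-/

set_option autoImplicit false

open scoped BigOperators

namespace Pool.Agent.F2

open Pool.Agent.helper23.TH

/-- the tidy part of `G` -/
def CL1_G {V L : Type} {b s : ℕ} (G : LG V L b s) : LG V L b s where
  A u v := G.A u v ∧ Disjoint (G.le u v) (G.lv u) ∧ Disjoint (G.le u v) (G.lv v)
  symm u v h := by
    refine ⟨G.symm u v h.1, ?_, ?_⟩
    · rw [G.lsymm v u]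
      exact h.2.2
    · rw [G.lsymm v u]
      exact h.2.1
  c := G.c
  bip u v h := G.bip u v h.1
  lv := G.lv
  le := G.le
  lsymm := G.lsymm
  nm := G.nm
  nmi := G.nmi
  nmm := G.nmm
  bv := G.bv
  be := G.be
  sp v x S h := G.sp v x S fun w hw => ⟨(h w hw).1.1, (h w hw).2⟩

open Classical in
/-- the neighbours `u` of `v` such that the edge has a label of `v` -/
noncomputable def CL1_B {V L : Type} [Fintype V] {b s : ℕ} (G : LG V L b s) (v : V) : Finset V :=
  Finset.univ.filter fun u => G.A v u ∧ ¬ Disjoint (G.le v u) (G.lv v)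

theorem CL1_card {V L : Type} [Fintype V] {b s : ℕ} (G : LG V L b s) (v : V) :
    (CL1_B G v).card ≤ b * s := by
  classical
  have h1 : CL1_B G v ⊆ (G.lv v).biUnion fun x => Finset.univ.filter fun u => G.A v u ∧ x ∈ G.le v u := by
    intro u hu
    rw [CL1_B, Finset.mem_filter] at hu
    obtain ⟨-, hA, hd⟩ := hu
    rw [Finset.not_disjoint_iff] at hd
    obtain ⟨x, hx, hx'⟩ := hd
    rw [Finset.mem_biUnion]
    exact ⟨x, hx', Finset.mem_filter.2 ⟨Finset.mem_univ _, hA, hx⟩⟩
  refine (Finset.card_le_card h1).trans (Finset.card_biUnion_le.trans ?_)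
  refine (Finset.sum_le_card_nsmul _ _ s fun x _ => ?_).trans ?_
  · refine G.sp v x _ fun w hw => ?_
    rw [Finset.mem_filter] at hw
    exact ⟨hw.2.1, Or.inr hw.2.2⟩
  · rw [smul_eq_mul]
    exact Nat.mul_le_mul_right s (G.bv v)

theorem CL1_sum {V L : Type} [Fintype V] {b s : ℕ} (G : LG V L b s) :
    ∑ v, dg G.A Finset.univ v ≤ (∑ v, dg (CL1_G G).A Finset.univ v) + 2 * (b * s) * Fintype.card V := by
  classical
  -- the pairs `(v, u)` such that the edge has a label of `u`
  let B' : V → Finset V := fun v => Finset.univ.filter fun u => G.A v u ∧ ¬ Disjoint (G.le v u) (G.lv u)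
  have h1 : ∀ v, dg G.A Finset.univ v ≤ dg (CL1_G G).A Finset.univ v + ((CL1_B G v).card + (B' v).card) := by
    intro v
    have h2 : (Finset.univ.filter fun u => G.A v u) ⊆
        (Finset.univ.filter fun u => (CL1_G G).A v u) ∪ (CL1_B G v ∪ B' v) := by
      intro u hu
      rw [Finset.mem_filter] at hu
      rw [Finset.mem_union, Finset.mem_union]
      by_cases h3 : Disjoint (G.le v u) (G.lv v)
      · by_cases h4 : Disjoint (G.le v u) (G.lv u)
        · exact Or.inl (Finset.mem_filter.2 ⟨Finset.mem_univ _, hu.2, h3, h4⟩)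
        · exact Or.inr (Or.inr (Finset.mem_filter.2 ⟨Finset.mem_univ _, hu.2, h4⟩))
      · refine Or.inr (Or.inl ?_)
        rw [CL1_B, Finset.mem_filter]
        exact ⟨Finset.mem_univ _, hu.2, h3⟩
    have h5 := (Finset.card_le_card h2).trans ((Finset.card_union_le _ _).trans
      (Nat.add_le_add_left (Finset.card_union_le _ _) _))
    unfold dg
    exact h5
  have h6 : ∑ v, (B' v).card = ∑ v, (CL1_B G v).card := by
    have e1 : ∀ v, (B' v).card = ∑ u, if G.A v u ∧ ¬ Disjoint (G.le v u) (G.lv u) then 1 else 0 := fun v => by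
      rw [Finset.card_filter]
    have e2 : ∀ v, (CL1_B G v).card = ∑ u, if G.A v u ∧ ¬ Disjoint (G.le v u) (G.lv v) then 1 else 0 :=
      fun v => by
      rw [CL1_B, Finset.card_filter]
    simp only [e1, e2]
    rw [Finset.sum_comm]
    refine Finset.sum_congr rfl fun u _ => Finset.sum_congr rfl fun v _ => ?_
    have h7 : (G.A v u ∧ ¬ Disjoint (G.le v u) (G.lv u)) ↔ (G.A u v ∧ ¬ Disjoint (G.le u v) (G.lv u)) := by
      rw [G.lsymm v u]
      exact and_congr_left fun _ => ⟨G.symm v u, G.symm u v⟩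
    by_cases h8 : G.A u v ∧ ¬ Disjoint (G.le u v) (G.lv u)
    · rw [if_pos h8, if_pos (h7.2 h8)]
    · rw [if_neg h8, if_neg fun h => h8 (h7.1 h)]
  have h9 : ∑ v, (CL1_B G v).card ≤ Fintype.card V * (b * s) := by
    refine (Finset.sum_le_card_nsmul _ _ (b * s) fun v _ => CL1_card G v).trans ?_
    rw [smul_eq_mul, Finset.card_univ]
  calc ∑ v, dg G.A Finset.univ v
      ≤ ∑ v, (dg (CL1_G G).A Finset.univ v + ((CL1_B G v).card + (B' v).card)) :=
        Finset.sum_le_sum fun v _ => h1 v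
    _ = (∑ v, dg (CL1_G G).A Finset.univ v) + (∑ v, (CL1_B G v).card + ∑ v, (B' v).card) := by
        rw [Finset.sum_add_distrib, Finset.sum_add_distrib]
    _ ≤ (∑ v, dg (CL1_G G).A Finset.univ v) + 2 * (b * s) * Fintype.card V := by
        rw [h6]
        refine Nat.add_le_add_left ?_ _
        calc _ ≤ Fintype.card V * (b * s) + Fintype.card V * (b * s) := Nat.add_le_add h9 h9
          _ = 2 * (b * s) * Fintype.card V := by ring

theorem CL1_cop {V L : Type} {b s : ℕ} (G : LG V L b s) (H : HG) (φ : H.W → V)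
    (h : (CL1_G G).Cop H φ) : G.Cop H φ := by
  have e : ∀ o, G.lab H φ o = (CL1_G G).lab H φ o := by
    rintro (w | e) <;> rfl
  refine ⟨fun e => (h.adj e).1, fun o o' ho => ?_⟩
  rw [e, e]
  exact h.dis o o' ho

theorem CL1 : CL1_stmt := by
  intro V L _ b s G
  refine ⟨CL1_G G, fun u v h => h.2.2, ?_, fun H => ⟨?_, ?_⟩⟩
  · have h := CL1_sum G
    have h' : ((∑ v, dg G.A Finset.univ v : ℕ) : ℝ) ≤
        (((∑ v, dg (CL1_G G).A Finset.univ v) + 2 * (b * s) * Fintype.card V : ℕ) : ℝ) :=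
      Nat.cast_le.2 h
    push_cast at h'
    linarith
  · rintro ⟨φ, h⟩
    exact ⟨φ, CL1_cop G H φ h⟩
  · rintro ⟨φ, h, h'⟩
    exact ⟨φ, CL1_cop G H φ h, h'⟩

end Pool.Agent.F2
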